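import Pool.Agent.Helper93.HZ.Spec1

/-!
# HZ, module BT: the Bass–Serre graph of an HNN extension is a tree
-/

set_option autoImplicit false

open MulAction Pointwise HNNExtension

namespace Pool.Agent.Helper93.HZ

section bt

variable {G : Type} [Group G] {A B : Subgroup G} {φ : A ≃* B}

/-- the graph -/
abbrev bt_T (φ : A ≃* B) : SimpleGraph (HNNExtension G A B φ ⧸
    (HNNExtension.of (A := A) (B := B) (φ := φ)).range) :=
  SimpleGraph.fromRel (cosetArr (HNNExtension.of (A := A) (B := B) (φ := φ)).range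
      (HNNExtension.t : HNNExtension G A B φ))

/-- the product of a list of letters -/
def bt_prod (φ : A ≃* B) (L : List (ℤˣ × G)) : HNNExtension G A B φ :=
  (L.map (fun x => HNNExtension.t ^ (x.1 : ℤ) * HNNExtension.of x.2)).prod

theorem bt_prod_nil : bt_prod φ [] = 1 := rfl

theorem bt_prod_cons (u : ℤˣ) (h : G) (L : List (ℤˣ × G)) :
    bt_prod φ ((u, h) :: L) = HNNExtension.t ^ (u : ℤ) * HNNExtension.of h * bt_prod φ L := by
  unfold bt_prod
  rw [List.map_cons, List.prod_cons]

theorem bt_step {x y : HNNExtension G A B φ ⧸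
    (HNNExtension.of (A := A) (B := B) (φ := φ)).range} (hxy : (bt_T φ).Adj x y)
    (g : HNNExtension G A B φ) (hg : x = (g : HNNExtension G A B φ ⧸
    (HNNExtension.of (A := A) (B := B) (φ := φ)).range)) :
    ∃ (h : G) (u : ℤˣ), y = ((g * HNNExtension.of h * HNNExtension.t ^ (u : ℤ) :
      HNNExtension G A B φ) : HNNExtension G A B φ ⧸
        (HNNExtension.of (A := A) (B := B) (φ := φ)).range) := by
  rw [SimpleGraph.fromRel_adj] at hxy
  rcases hxy.2 with ⟨g', hx, hy⟩ | ⟨g', hy, hx⟩
  · rw [hg] at hx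
    have h1 := QuotientGroup.eq.1 hx
    obtain ⟨h, hh⟩ := h1
    refine ⟨h, 1, ?_⟩
    rw [hy, hh]
    congr 1
    rw [Units.val_one, zpow_one]
    group
  · rw [hg] at hx
    have h1 := QuotientGroup.eq.1 hx
    obtain ⟨h, hh⟩ := h1
    refine ⟨h, -1, ?_⟩
    rw [hy, hh]
    congr 1
    rw [Units.val_neg, Units.val_one, zpow_neg, zpow_one]
    group

theorem bt_cancel (u : ℤˣ) (h : G) (hh : h ∈ toSubgroup A B u) (g : HNNExtension G A B φ) :
    ((g * HNNExtension.t ^ (u : ℤ) * HNNExtension.of h * HNNExtension.t ^ ((-u : ℤˣ) : ℤ) :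
      HNNExtension G A B φ) : HNNExtension G A B φ ⧸
        (HNNExtension.of (A := A) (B := B) (φ := φ)).range) =
      (g : HNNExtension G A B φ ⧸ (HNNExtension.of (A := A) (B := B) (φ := φ)).range) := by
  symm
  rw [QuotientGroup.eq]
  rcases Int.units_eq_one_or u with rfl | rfl
  · refine ⟨(φ ⟨h, hh⟩ : G), ?_⟩
    rw [equiv_eq_conj]
    rw [Units.val_neg, Units.val_one, zpow_neg, zpow_one]
    group
  · refine ⟨(φ.symm ⟨h, hh⟩ : G), ?_⟩
    rw [equiv_symm_eq_conj]
    rw [neg_neg, Units.val_neg, Units.val_one, zpow_neg, zpow_one]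
    group

theorem bt_of (g : HNNExtension G A B φ) (h : G) :
    ((g * HNNExtension.of h : HNNExtension G A B φ) : HNNExtension G A B φ ⧸
        (HNNExtension.of (A := A) (B := B) (φ := φ)).range) =
      (g : HNNExtension G A B φ ⧸ (HNNExtension.of (A := A) (B := B) (φ := φ)).range) := by
  symm
  rw [QuotientGroup.eq]
  exact ⟨h, by group⟩

theorem bt_walk {x y : HNNExtension G A B φ ⧸
    (HNNExtension.of (A := A) (B := B) (φ := φ)).range} (p : (bt_T φ).Walk x y) :
    p.IsTrail → ∀ g : HNNExtension G A B φ, x = (g : HNNExtension G A B φ ⧸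
    (HNNExtension.of (A := A) (B := B) (φ := φ)).range) →
    ∃ (h : G) (L : List (ℤˣ × G)),
      L.IsChain (fun a b => a.2 ∈ toSubgroup A B a.1 → a.1 = b.1) ∧ L.length = p.length ∧
      y = ((g * HNNExtension.of h * bt_prod φ L : HNNExtension G A B φ) :
        HNNExtension G A B φ ⧸ (HNNExtension.of (A := A) (B := B) (φ := φ)).range) ∧
      ∀ u v L', L = (u, v) :: L' → p.getVert 1 = ((g * HNNExtension.of h *
        HNNExtension.t ^ (u : ℤ) : HNNExtension G A B φ) :
        HNNExtension G A B φ ⧸ (HNNExtension.of (A := A) (B := B) (φ := φ)).range) := by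
  induction p with
  | nil =>
    intro _ g hg
    refine ⟨1, [], List.isChain_nil, rfl, ?_, ?_⟩
    · rw [hg, bt_prod_nil, map_one, mul_one, mul_one]
    · intro u v L' h
      exact absurd h (by simp)
  | @cons x x1 y hadj p ih =>
    intro htr g hg
    rw [SimpleGraph.Walk.isTrail_cons] at htr
    obtain ⟨h0, u, hx1⟩ := bt_step hadj g hg
    obtain ⟨h1, L1, hch, hlen, hy, hspec⟩ := ih htr.1 _ hx1
    refine ⟨h0, (u, h1) :: L1, ?_, ?_, ?_, ?_⟩
    · cases L1 with
      | nil => exact List.isChain_singleton _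
      | cons a L2 =>
        rw [List.isChain_cons_cons]
        refine ⟨?_, hch⟩
        intro hmem
        by_contra hne
        have hneg : a.1 = -u := by
          have h2 : u ≠ a.1 := hne
          rcases Int.units_eq_one_or u with h3 | h3 <;>
            rcases Int.units_eq_one_or a.1 with h4 | h4
          · exact absurd (h3.trans h4.symm) h2
          · rw [h3, h4]
          · rw [h3, h4, neg_neg]
          · exact absurd (h3.trans h4.symm) h2
        have h5 := hspec a.1 a.2 L2 rfl
        rw [hneg, bt_cancel u h1 hmem, bt_of, ← hg] at h5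
        cases p with
        | nil => simp at hlen
        | cons hadj' p' =>
          rw [SimpleGraph.Walk.getVert_cons_succ, SimpleGraph.Walk.getVert_zero] at h5
          apply htr.2
          rw [SimpleGraph.Walk.edges_cons, List.mem_cons]
          left
          rw [h5, Sym2.eq_swap]
    · rw [List.length_cons, hlen, SimpleGraph.Walk.length_cons]
    · rw [hy, bt_prod_cons]
      congr 1
      group
    · intro u' v' L' hL
      rw [List.cons.injEq, Prod.mk.injEq] at hL
      rw [SimpleGraph.Walk.getVert_cons_succ, SimpleGraph.Walk.getVert_zero, hx1, hL.1.1]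

theorem bt_acyclic : (bt_T φ).IsAcyclic := by
  intro v c hc
  obtain ⟨g, rfl⟩ := QuotientGroup.mk_surjective v
  obtain ⟨h, L, hch, hlen, hv, -⟩ := bt_walk c hc.isTrail g rfl
  have h1 := QuotientGroup.eq.1 hv
  have h2 : g⁻¹ * (g * HNNExtension.of h * bt_prod φ L) = HNNExtension.of h * bt_prod φ L := by
    group
  rw [h2] at h1
  have h3 := HNNExtension.ReducedWord.toList_eq_nil_of_mem_of_range (φ := φ)
    (⟨h, L, hch⟩ : NormalWord.ReducedWord G A B) h1
  have h4 : L = [] := h3
  rw [h4, List.length_nil] at hlen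
  have h5 := hc.three_le_length
  omega

theorem bt_reach_smul {x y : HNNExtension G A B φ ⧸
    (HNNExtension.of (A := A) (B := B) (φ := φ)).range} (hxy : (bt_T φ).Reachable x y)
    (g : HNNExtension G A B φ) : (bt_T φ).Reachable (g • x) (g • y) := by
  obtain ⟨p⟩ := hxy
  induction p with
  | nil => exact SimpleGraph.Reachable.refl _
  | @cons x x1 y hadj p ih =>
    refine SimpleGraph.Reachable.trans ?_ ih
    apply SimpleGraph.Adj.reachable
    rw [SimpleGraph.fromRel_adj] at hadj ⊢
    refine ⟨fun h => hadj.1 (smul_left_cancel g h), ?_⟩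
    rcases hadj.2 with ⟨g', hx, hy⟩ | ⟨g', hx, hy⟩
    · left
      refine ⟨g * g', ?_, ?_⟩
      · rw [hx]; rfl
      · rw [hy, mul_assoc]; rfl
    · right
      refine ⟨g * g', ?_, ?_⟩
      · rw [hx]; rfl
      · rw [hy, mul_assoc]; rfl

theorem bt_connected : (bt_T φ).Connected := by
  rw [SimpleGraph.connected_iff_exists_forall_reachable]
  refine ⟨((1 : HNNExtension G A B φ) : HNNExtension G A B φ ⧸
    (HNNExtension.of (A := A) (B := B) (φ := φ)).range), fun w => ?_⟩
  obtain ⟨g, rfl⟩ := QuotientGroup.mk_surjective w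
  induction g using HNNExtension.induction_on with
  | of g =>
    have h1 := bt_of (1 : HNNExtension G A B φ) g
    rw [one_mul] at h1
    rw [h1]
  | t =>
    by_cases h : ((1 : HNNExtension G A B φ) : HNNExtension G A B φ ⧸
        (HNNExtension.of (A := A) (B := B) (φ := φ)).range) =
        ((HNNExtension.t : HNNExtension G A B φ) : HNNExtension G A B φ ⧸
        (HNNExtension.of (A := A) (B := B) (φ := φ)).range)
    · rw [← h]
    · apply SimpleGraph.Adj.reachable
      rw [SimpleGraph.fromRel_adj]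
      exact ⟨h, Or.inl ⟨1, rfl, by rw [one_mul]⟩⟩
  | mul x y hx hy =>
    refine hx.trans ?_
    have h1 := bt_reach_smul hy x
    have e1 : x • ((1 : HNNExtension G A B φ) : HNNExtension G A B φ ⧸
        (HNNExtension.of (A := A) (B := B) (φ := φ)).range) =
        (x : HNNExtension G A B φ ⧸ (HNNExtension.of (A := A) (B := B) (φ := φ)).range) := by
      show ((x * 1 : HNNExtension G A B φ) : HNNExtension G A B φ ⧸
        (HNNExtension.of (A := A) (B := B) (φ := φ)).range) = _
      rw [mul_one]
    rw [e1] at h1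
    exact h1
  | inv x hx =>
    have h1 := bt_reach_smul hx x⁻¹
    have e1 : x⁻¹ • ((1 : HNNExtension G A B φ) : HNNExtension G A B φ ⧸
        (HNNExtension.of (A := A) (B := B) (φ := φ)).range) =
        ((x⁻¹ : HNNExtension G A B φ) : HNNExtension G A B φ ⧸
        (HNNExtension.of (A := A) (B := B) (φ := φ)).range) := by
      show ((x⁻¹ * 1 : HNNExtension G A B φ) : HNNExtension G A B φ ⧸
        (HNNExtension.of (A := A) (B := B) (φ := φ)).range) = _
      rw [mul_one]
    have e2 : x⁻¹ • ((x : HNNExtension G A B φ) : HNNExtension G A B φ ⧸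
        (HNNExtension.of (A := A) (B := B) (φ := φ)).range) =
        ((1 : HNNExtension G A B φ) : HNNExtension G A B φ ⧸
        (HNNExtension.of (A := A) (B := B) (φ := φ)).range) := by
      show ((x⁻¹ * x : HNNExtension G A B φ) : HNNExtension G A B φ ⧸
        (HNNExtension.of (A := A) (B := B) (φ := φ)).range) = _
      rw [inv_mul_cancel]
    rw [e1, e2] at h1
    exact h1.symm

/-- the exponent sum -/
def bt_exp (φ : A ≃* B) : HNNExtension G A B φ →* Multiplicative ℤ :=
  HNNExtension.lift 1 (Multiplicative.ofAdd 1) (fun a => by simp)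

theorem bt_exp_eq {x y : HNNExtension G A B φ} (h : (x : HNNExtension G A B φ ⧸
    (HNNExtension.of (A := A) (B := B) (φ := φ)).range) = (y : HNNExtension G A B φ ⧸
    (HNNExtension.of (A := A) (B := B) (φ := φ)).range)) : bt_exp φ x = bt_exp φ y := by
  obtain ⟨g, hg⟩ := QuotientGroup.eq.1 h
  have h1 : y = x * HNNExtension.of g := by rw [hg]; group
  rw [h1, map_mul]
  have h2 : bt_exp φ (HNNExtension.of g) = 1 := by
    unfold bt_exp
    rw [lift_of]
    rfl
  rw [h2, mul_one]

theorem bt_exp_t : bt_exp φ HNNExtension.t = Multiplicative.ofAdd 1 := by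
  unfold bt_exp
  rw [lift_t]

end bt

theorem st_BT : ST_BT := by
  intro G _ A B φ
  refine ⟨⟨bt_connected, bt_acyclic⟩, ?_⟩
  rintro x y ⟨g1, hx1, hy1⟩ ⟨g2, hy2, hx2⟩
  have h1 := bt_exp_eq (hx1.symm.trans hx2)
  have h2 := bt_exp_eq (hy1.symm.trans hy2)
  rw [map_mul, bt_exp_t] at h1 h2
  rw [← h2, mul_assoc] at h1
  have h3 : (Multiplicative.ofAdd (1 : ℤ)) * Multiplicative.ofAdd (1 : ℤ) = 1 :=
    (mul_eq_left.1 h1.symm)
  have h4 : ((1 : ℤ) + 1) = 0 := congrArg Multiplicative.toAdd h3
  omega

end Pool.Agent.Helper93.HZ
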